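import Pool.Agent.R10.FibUpper

/-!
# The prefix palindromic length of the Fibonacci word

The limit superior of `PPL n / log n` equals `1 / (3 log φ)`, where `φ` is the golden ratio.
-/

namespace Pool.Agent.Results.MP_3353e5_co.GrowthConstant

open Pool.Agent.R10.FibWord

/-- The prefix palindromic length of the Fibonacci word: the least number of nonempty palindromes
whose concatenation is the prefix of length `n`. -/
noncomputable def PPL (n : ℕ) : ℕ :=
  sInf {k | ∃ L : List (List Bool), L.length = k ∧ (∀ p ∈ L, p ≠ [] ∧ p.reverse = p) ∧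
    L.flatten = prefixWord n}

theorem reach_of_list (L : List (List Bool)) : ∀ n, (∀ p ∈ L, p ≠ [] ∧ p.reverse = p) →
    L.flatten = prefixWord n → Reach L.length n := by
  induction L using List.reverseRecOn with
  | nil =>
    intro n _ h
    have := congrArg List.length h
    rw [length_prefixWord] at this
    exact this.symm
  | append_singleton L p ih =>
    intro n hp h
    rw [List.flatten_append, List.flatten_singleton] at h
    have hlen := congrArg List.length h
    rw [List.length_append, length_prefixWord] at hlen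
    have h2 : prefixWord n = prefixWord L.flatten.length ++ seg L.flatten.length p.length := by
      rw [← hlen, prefixWord_add]; rfl
    rw [h2] at h
    obtain ⟨h3, h4⟩ := List.append_inj h (by rw [length_prefixWord])
    have h5 := ih L.flatten.length (fun p hp' => hp p (by simp [hp'])) h3
    have h6 := (hp p (by simp)).2
    rw [List.length_append, List.length_singleton]
    refine ⟨L.flatten.length, h5, ?_⟩
    rw [← hlen]
    apply pal_of_seg
    rw [← h4, h6]

theorem seg_reverse {i j : ℕ} (h : pal i j) : (seg i (j - i)).reverse = seg i (j - i) := by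
  have hij := h.1
  apply List.ext_getElem
  · simp
  · intro s h1 h2
    rw [List.getElem_reverse, seg_getElem, seg_getElem, length_seg]
    rw [length_seg] at h2
    exact h.2 _ _ (by omega) (by omega) (by omega)

theorem list_of_reach (k : ℕ) : ∀ n, Reach k n → ∃ L : List (List Bool), L.length ≤ k ∧
    (∀ p ∈ L, p ≠ [] ∧ p.reverse = p) ∧ L.flatten = prefixWord n := by
  induction k with
  | zero =>
    intro n h
    have : n = 0 := h
    subst this
    exact ⟨[], le_rfl, by simp, rfl⟩
  | succ k ih =>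
    rintro n ⟨c, hc, hp⟩
    obtain ⟨L, h1, h2, h3⟩ := ih c hc
    rcases hp.1.eq_or_lt with rfl | hlt
    · exact ⟨L, by omega, h2, h3⟩
    · refine ⟨L ++ [seg c (n - c)], by simp [h1], ?_, ?_⟩
      · intro p hp'
        rw [List.mem_append, List.mem_singleton] at hp'
        rcases hp' with hp' | rfl
        · exact h2 p hp'
        · refine ⟨?_, seg_reverse hp⟩
          intro h
          have := congrArg List.length h
          rw [length_seg] at this
          simp at this
          omega
      · rw [List.flatten_append, List.flatten_singleton, h3]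
        have := prefixWord_add c (n - c)
        rw [show c + (n - c) = n by omega] at this
        exact this.symm

theorem PPL_le {k n : ℕ} (h : Reach k n) : PPL n ≤ k := by
  obtain ⟨L, h1, h2, h3⟩ := list_of_reach k n h
  have h4 : PPL n ≤ L.length := Nat.sInf_le ⟨L, rfl, h2, h3⟩
  exact h4.trans h1

theorem reach_PPL (n : ℕ) : Reach (PPL n) n := by
  obtain ⟨L, _, h2, h3⟩ := list_of_reach n n (Steps_Reach n n (Steps_id n))
  have hne : Set.Nonempty {k | ∃ L : List (List Bool), L.length = k ∧
      (∀ p ∈ L, p ≠ [] ∧ p.reverse = p) ∧ L.flatten = prefixWord n} :=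
    ⟨L.length, L, rfl, h2, h3⟩
  obtain ⟨L', h1', h2', h3'⟩ := Nat.sInf_mem hne
  have := reach_of_list L' n h2' h3'
  rw [h1'] at this
  exact this

theorem iterB (k : ℕ) : B^[k] 1 = Nat.fib (k + 2) ∧ B^[k + 1] 1 = Nat.fib (k + 3) := by
  induction k with
  | zero => exact ⟨rfl, B_one.trans rfl⟩
  | succ k ih =>
    obtain ⟨h1, h2⟩ := ih
    refine ⟨h2, ?_⟩
    have h3 : B^[k + 1 + 1] 1 = B^[k + 1] 1 + B^[k] 1 := by
      rw [Function.iterate_succ_apply', Function.iterate_succ_apply', B_B]
    rw [h3, h1, h2, Nat.fib_add_two (n := k + 2)]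
    ring

theorem sp_fib (k : ℕ) : 2 * sp k + 2 = Nat.fib (3 * k + 3) ∧
    2 * B (sp k) + 3 = Nat.fib (3 * k + 4) := by
  induction k with
  | zero => exact ⟨rfl, rfl⟩
  | succ k ih =>
    obtain ⟨h1, h2⟩ := ih
    obtain ⟨h3, h4⟩ := sp_rec k
    have e5 : Nat.fib (3 * k + 5) = Nat.fib (3 * k + 3) + Nat.fib (3 * k + 4) :=
      Nat.fib_add_two
    have e6 : Nat.fib (3 * k + 6) = Nat.fib (3 * k + 4) + Nat.fib (3 * k + 5) :=
      Nat.fib_add_two
    have e7 : Nat.fib (3 * k + 7) = Nat.fib (3 * k + 5) + Nat.fib (3 * k + 6) :=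
      Nat.fib_add_two
    rw [show 3 * (k + 1) + 3 = 3 * k + 6 by ring, show 3 * (k + 1) + 4 = 3 * k + 7 by ring]
    constructor <;> omega

theorem lower_PPL (k : ℕ) : k ≤ PPL (Nat.fib (3 * k + 3) / 2 - 1) + 1 := by
  have h := (sp_fib k).1
  have h2 : Nat.fib (3 * k + 3) / 2 - 1 = sp k := by omega
  rw [h2]
  exact lower (reach_PPL (sp k))

open Real

theorem pow_le_fib (n : ℕ) : goldenRatio ^ n ≤ (Nat.fib (n + 2) : ℝ) ∧
    goldenRatio ^ (n + 1) ≤ (Nat.fib (n + 3) : ℝ) := by
  induction n with
  | zero =>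
    refine ⟨by simp, ?_⟩
    have h : goldenRatio < 2 := goldenRatio_lt_two
    simp [Nat.fib]
    linarith
  | succ n ih =>
    obtain ⟨h1, h2⟩ := ih
    refine ⟨h2, ?_⟩
    have h3 : goldenRatio ^ (n + 1 + 1) = goldenRatio ^ n + goldenRatio ^ (n + 1) := by
      rw [show n + 1 + 1 = n + 2 by ring, pow_add, goldenRatio_sq]; ring
    have h4 : Nat.fib (n + 1 + 3) = Nat.fib (n + 2) + Nat.fib (n + 3) := Nat.fib_add_two
    rw [h3, h4]
    push_cast
    linarith

theorem fib_le_pow (n : ℕ) : (Nat.fib (n + 1) : ℝ) ≤ goldenRatio ^ n ∧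
    (Nat.fib (n + 2) : ℝ) ≤ goldenRatio ^ (n + 1) := by
  induction n with
  | zero =>
    refine ⟨by simp, ?_⟩
    have h : 1 < goldenRatio := one_lt_goldenRatio
    simp
    linarith
  | succ n ih =>
    obtain ⟨h1, h2⟩ := ih
    refine ⟨h2, ?_⟩
    have h3 : goldenRatio ^ (n + 1 + 1) = goldenRatio ^ n + goldenRatio ^ (n + 1) := by
      rw [show n + 1 + 1 = n + 2 by ring, pow_add, goldenRatio_sq]; ring
    have h4 : Nat.fib (n + 1 + 2) = Nat.fib (n + 1) + Nat.fib (n + 2) := Nat.fib_add_two
    rw [h3, h4]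
    push_cast
    linarith

theorem log_pos_golden : 0 < Real.log goldenRatio := Real.log_pos one_lt_goldenRatio

theorem upper_PPL {n : ℕ} (hn : 1 ≤ n) :
    (PPL n : ℝ) ≤ Real.log n / (3 * Real.log goldenRatio) + 43 := by
  have hL := log_pos_golden
  have hn' : (1 : ℝ) ≤ n := by exact_mod_cast hn
  have hlog : 0 ≤ Real.log n := Real.log_nonneg hn'
  set x : ℝ := Real.log n / (6 * Real.log goldenRatio) with hx
  have hx0 : 0 ≤ x := by positivity
  obtain ⟨j, hj1, hj2⟩ : ∃ j : ℕ, x < j ∧ (j : ℝ) ≤ x + 1 :=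
    ⟨⌊x⌋₊ + 1, by push_cast; exact Nat.lt_floor_add_one x, by
      push_cast; linarith [Nat.floor_le hx0]⟩
  have h1 : (n : ℝ) < goldenRatio ^ (6 * j) := by
    have h2 : Real.log n < (6 * j : ℕ) * Real.log goldenRatio := by
      rw [hx, div_lt_iff₀ (by positivity)] at hj1
      push_cast
      linarith
    rw [← Real.log_pow] at h2
    exact (Real.log_lt_log_iff (by linarith) (by positivity)).mp h2
  have h3 : (n : ℝ) < (B^[6 * j] 1 : ℕ) := by
    rw [(iterB (6 * j)).1]
    exact h1.trans_le (pow_le_fib (6 * j)).1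
  have h4 : n < B^[6 * j] 1 := by exact_mod_cast h3
  have h5 : PPL n ≤ 2 * j + 41 := PPL_le (upper h4)
  have h6 : (PPL n : ℝ) ≤ 2 * j + 41 := by exact_mod_cast h5
  have h7 : Real.log n / (3 * Real.log goldenRatio) = 2 * x := by
    rw [hx]; field_simp; ring
  rw [h7]
  linarith

theorem tendsto_upper :
    Filter.Tendsto (fun n : ℕ => 1 / (3 * Real.log goldenRatio) + 43 / Real.log (n : ℝ))
      Filter.atTop (nhds (1 / (3 * Real.log goldenRatio))) := by
  have h1 : Filter.Tendsto (fun n : ℕ => Real.log (n : ℝ)) Filter.atTop Filter.atTop :=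
    Real.tendsto_log_atTop.comp tendsto_natCast_atTop_atTop
  have h2 := (h1.const_div_atTop (43 : ℝ)).const_add (1 / (3 * Real.log goldenRatio))
  simpa using h2

theorem eventually_upper : ∀ᶠ n : ℕ in Filter.atTop, (PPL n : ℝ) / Real.log n ≤
    1 / (3 * Real.log goldenRatio) + 43 / Real.log (n : ℝ) := by
  filter_upwards [Filter.eventually_ge_atTop 2] with n hn
  have hL := log_pos_golden
  have h1 : (1 : ℝ) < n := by exact_mod_cast hn
  have h2 : 0 < Real.log n := Real.log_pos h1
  rw [div_le_iff₀ h2]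
  have h3 := upper_PPL (n := n) (by omega)
  have h4 : (1 / (3 * Real.log goldenRatio) + 43 / Real.log (n : ℝ)) * Real.log n =
      Real.log n / (3 * Real.log goldenRatio) + 43 := by field_simp
  rw [h4]
  exact h3

theorem bddAbove : Filter.IsBoundedUnder (· ≤ ·) Filter.atTop
    (fun n : ℕ => (PPL n : ℝ) / Real.log n) := by
  obtain ⟨C, hC⟩ := tendsto_upper.isBoundedUnder_le
  refine ⟨C, ?_⟩
  rw [Filter.eventually_map] at hC ⊢
  filter_upwards [hC, eventually_upper] with n h1 h2
  exact h2.trans h1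

theorem bddBelow : Filter.IsCoboundedUnder (· ≤ ·) Filter.atTop
    (fun n : ℕ => (PPL n : ℝ) / Real.log n) := by
  apply Filter.IsBoundedUnder.isCoboundedUnder_le
  refine ⟨0, ?_⟩
  rw [Filter.eventually_map]
  filter_upwards [Filter.eventually_ge_atTop 1] with n hn
  have : 0 ≤ Real.log n := Real.log_nonneg (by exact_mod_cast hn)
  positivity

theorem frequently_lower {a : ℝ} (ha : a < 1 / (3 * Real.log goldenRatio)) :
    ∃ᶠ n : ℕ in Filter.atTop, a ≤ (PPL n : ℝ) / Real.log n := by
  have hL := log_pos_golden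
  rw [Filter.frequently_atTop]
  intro N
  have hlim : Filter.Tendsto (fun k : ℕ => ((k : ℝ) - 1) / ((3 * k + 2) * Real.log goldenRatio))
      Filter.atTop (nhds (1 / (3 * Real.log goldenRatio))) := by
    have h1 : Filter.Tendsto (fun k : ℕ => (1 - 1 / (k : ℝ)) /
        ((3 + 2 / (k : ℝ)) * Real.log goldenRatio)) Filter.atTop
        (nhds ((1 - 0) / ((3 + 0) * Real.log goldenRatio))) := by
      apply Filter.Tendsto.div
      · exact (tendsto_const_nhds).sub (tendsto_const_div_atTop_nhds_zero_nat 1)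
      · exact ((tendsto_const_nhds).add (tendsto_const_div_atTop_nhds_zero_nat 2)).mul_const _
      · positivity
    rw [sub_zero, add_zero] at h1
    refine h1.congr' ?_
    filter_upwards [Filter.eventually_ge_atTop 1] with k hk
    have : (0 : ℝ) < k := by exact_mod_cast hk
    field_simp
  have h2 := (hlim.eventually_const_lt ha).and (Filter.eventually_ge_atTop (N + 2))
  obtain ⟨k, hk1, hk2⟩ := h2.exists
  have hsp := (sp_fib k).1
  have hge : k ≤ sp k := by
    clear hk1 hk2 hsp h2
    induction k with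
    | zero => exact Nat.zero_le _
    | succ k ih => have := (sp_rec k).1; omega
  refine ⟨sp k, by omega, ?_⟩
  have h3 : k ≤ PPL (sp k) + 1 := lower (reach_PPL (sp k))
  have h3' : (k : ℝ) ≤ PPL (sp k) + 1 := by exact_mod_cast h3
  have h4 : (sp k : ℝ) ≤ goldenRatio ^ (3 * k + 2) := by
    have h5 := (fib_le_pow (3 * k + 2)).1
    rw [show 3 * k + 2 + 1 = 3 * k + 3 by ring, ← hsp] at h5
    push_cast at h5
    have : (0 : ℝ) ≤ sp k := Nat.cast_nonneg _
    linarith
  have h6 : (1 : ℝ) < sp k := by
    have : 2 ≤ sp k := by omega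
    exact_mod_cast this
  have h7 : 0 < Real.log (sp k) := Real.log_pos h6
  have h8 : Real.log (sp k) ≤ (3 * k + 2) * Real.log goldenRatio := by
    have := Real.log_le_log (by linarith) h4
    rw [Real.log_pow] at this
    push_cast at this
    exact this
  have h9 : (1 : ℝ) ≤ k := by exact_mod_cast (show 1 ≤ k by omega)
  calc a ≤ ((k : ℝ) - 1) / ((3 * k + 2) * Real.log goldenRatio) := hk1.le
    _ ≤ ((k : ℝ) - 1) / Real.log (sp k) :=
        div_le_div_of_nonneg_left (by linarith) h7 h8
    _ ≤ (PPL (sp k) : ℝ) / Real.log (sp k) :=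
        div_le_div_of_nonneg_right (by linarith) h7.le

/-- **The growth constant of the prefix palindromic length of the Fibonacci word.** -/
theorem result :
    (∀ k : ℕ, prefixWord (phi^[k] [false]).length = phi^[k] [false]) ∧
    (∀ n : ℕ, 1 ≤ n → (PPL n : ℝ) ≤ Real.log n / (3 * Real.log Real.goldenRatio) + 43) ∧
    (∀ k : ℕ, k ≤ PPL (Nat.fib (3 * k + 3) / 2 - 1) + 1) ∧
    Filter.limsup (fun n : ℕ => (PPL n : ℝ) / Real.log n) Filter.atTop =
      1 / (3 * Real.log Real.goldenRatio) := by
  refine ⟨prefixWord_W, fun n hn => upper_PPL hn, lower_PPL, ?_⟩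
  apply le_antisymm
  · rw [← tendsto_upper.limsup_eq]
    exact Filter.limsup_le_limsup eventually_upper bddBelow tendsto_upper.isBoundedUnder_le
  · apply le_of_forall_lt
    intro a ha
    obtain ⟨b, hb1, hb2⟩ := exists_between ha
    exact hb1.trans_le (Filter.le_limsup_of_frequently_le (frequently_lower hb2) bddAbove)

end Pool.Agent.Results.MP_3353e5_co.GrowthConstant
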