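import Pool.Agent.R864.FibUpper

/-!
# MP_3353e5_co: prefix palindromic length of the Fibonacci word

`λ = limsup PPL_f(n) / ln n = 1 / (3 ln φ)`, where `φ` is the golden ratio.

* `fw k = φ^k(a)` (words over `Bool`, `true = a`, `false = b`), `fib n` is the `n`-th letter
  (from `0`) of the Fibonacci word, `pre n` its prefix of length `n`,
* `PPL n` is the least `k` such that `pre n` is a concatenation of `k` nonempty palindromes.
-/

namespace Pool.Agent.Results.MP_3353e5_co.LogarithmicConstant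

open Pool.Agent.R864.FibWord Filter


theorem log_g_pos : 0 < Real.log Real.goldenRatio := Real.log_pos Real.one_lt_goldenRatio

theorem pow_le_fib (j : ℕ) : Real.goldenRatio ^ j ≤ (Nat.fib (j + 2) : ℝ) ∧ Real.goldenRatio ^ (j + 1) ≤ (Nat.fib (j + 3) : ℝ) := by
  induction j with
  | zero =>
    constructor
    · norm_num
    · have h2 : Real.goldenRatio < 2 := Real.goldenRatio_lt_two
      norm_num [Nat.fib]
      exact h2.le
  | succ j ih =>
    refine ⟨ih.2, ?_⟩
    have e : Real.goldenRatio ^ (j + 1 + 1) = Real.goldenRatio ^ (j + 1) + Real.goldenRatio ^ j := by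
      have := Real.goldenRatio_sq
      calc Real.goldenRatio ^ (j + 1 + 1) = Real.goldenRatio ^ j * Real.goldenRatio ^ 2 := by ring
        _ = Real.goldenRatio ^ j * (Real.goldenRatio + 1) := by rw [this]
        _ = Real.goldenRatio ^ (j + 1) + Real.goldenRatio ^ j := by ring
    have e2 : Nat.fib (j + 1 + 3) = Nat.fib (j + 2) + Nat.fib (j + 3) := Nat.fib_add_two (n := j + 2)
    rw [e, e2]
    push_cast
    linarith [ih.1, ih.2]

theorem fib_le_pow (j : ℕ) : (Nat.fib (j + 1) : ℝ) ≤ Real.goldenRatio ^ j ∧ (Nat.fib (j + 2) : ℝ) ≤ Real.goldenRatio ^ (j + 1) := by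
  induction j with
  | zero =>
    constructor
    · norm_num
    · have h2 := Real.one_lt_goldenRatio
      norm_num
      exact h2.le
  | succ j ih =>
    refine ⟨ih.2, ?_⟩
    have e : Real.goldenRatio ^ (j + 1 + 1) = Real.goldenRatio ^ (j + 1) + Real.goldenRatio ^ j := by
      have := Real.goldenRatio_sq
      calc Real.goldenRatio ^ (j + 1 + 1) = Real.goldenRatio ^ j * Real.goldenRatio ^ 2 := by ring
        _ = Real.goldenRatio ^ j * (Real.goldenRatio + 1) := by rw [this]
        _ = Real.goldenRatio ^ (j + 1) + Real.goldenRatio ^ j := by ring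
    have e2 : Nat.fib (j + 1 + 2) = Nat.fib (j + 1) + Nat.fib (j + 2) := Nat.fib_add_two (n := j + 1)
    rw [e, e2]
    push_cast
    linarith [ih.1, ih.2]

theorem exists_level (n : ℕ) (hn : 3 ≤ n) : ∃ k, Nat.fib (k + 4) ≤ n ∧ n < Nat.fib (k + 5) := by
  have hex : ∃ k, n < Nat.fib (k + 4) := by
    refine ⟨n + 1, ?_⟩
    have := Nat.le_fib_self (n := n + 1 + 4) (by omega)
    omega
  classical
  have h1 := Nat.find_spec hex
  set k := Nat.find hex with hk
  have hk0 : k ≠ 0 := by
    intro h0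
    rw [h0] at h1
    have : Nat.fib (0 + 4) = 3 := rfl
    omega
  obtain ⟨k', hk'⟩ := Nat.exists_eq_succ_of_ne_zero hk0
  refine ⟨k', ?_, ?_⟩
  · by_contra hc
    have := Nat.find_min' hex (m := k') (by omega)
    omega
  · have e : k' + 5 = k + 4 := by omega
    rw [e]; exact h1

theorem upper (n : ℕ) (hn : 1 ≤ n) :
    (PPL n : ℝ) ≤ Real.log n / (3 * Real.log Real.goldenRatio) + 14 := by
  have hg := log_g_pos
  rcases Nat.lt_or_ge n 3 with h3 | h3
  · have h1 : PPL n ≤ n := PPL_le (fac_self n)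
    have h2 : (PPL n : ℝ) ≤ 2 := by exact_mod_cast h1.trans (by omega)
    have h4 : 0 ≤ Real.log n / (3 * Real.log Real.goldenRatio) :=
      div_nonneg (Real.log_natCast_nonneg n) (by positivity)
    linarith
  · obtain ⟨k, hk1, hk2⟩ := exists_level n h3
    have h1 := PPL_upper k n hk1 hk2
    have h1' : 3 * (PPL n : ℝ) ≤ k + 41 := by exact_mod_cast h1
    have h2 : Real.goldenRatio ^ (k + 2) ≤ (n : ℝ) := ((pow_le_fib (k + 2)).1).trans (by exact_mod_cast hk1)
    have h3 : ((k : ℝ) + 2) * Real.log Real.goldenRatio ≤ Real.log n := by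
      have := Real.log_le_log (pow_pos Real.goldenRatio_pos _) h2
      rw [Real.log_pow] at this
      push_cast at this
      exact this
    have h4 : ((k : ℝ) + 2) / 3 ≤ Real.log n / (3 * Real.log Real.goldenRatio) := by
      rw [div_le_div_iff₀ (by norm_num) (by positivity)]
      nlinarith
    linarith

theorem lower (k : ℕ) :
    Real.log (Pool.Agent.R864.FibWord.sq k) / (3 * Real.log Real.goldenRatio) - 1 ≤ (PPL (Pool.Agent.R864.FibWord.sq k) : ℝ) := by
  have hg := log_g_pos
  have h1 : ((k : ℝ) + 1) ≤ PPL (Pool.Agent.R864.FibWord.sq k) := by exact_mod_cast PPL_sq k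
  have hpos : (0 : ℝ) < Pool.Agent.R864.FibWord.sq k := by
    have := sq_ge k
    have : 0 < Pool.Agent.R864.FibWord.sq k := by omega
    exact_mod_cast this
  have h2 : (Pool.Agent.R864.FibWord.sq k : ℝ) ≤ Real.goldenRatio ^ (3 * k + 4) :=
    (by exact_mod_cast (sq_lt k).le : (Pool.Agent.R864.FibWord.sq k : ℝ) ≤ Nat.fib (3 * k + 5)).trans
      (fib_le_pow (3 * k + 4)).1
  have h3 : Real.log (Pool.Agent.R864.FibWord.sq k) ≤ (3 * (k : ℝ) + 4) * Real.log Real.goldenRatio := by
    have := Real.log_le_log hpos h2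
    rw [Real.log_pow] at this
    push_cast at this
    exact this
  have h4 : Real.log (Pool.Agent.R864.FibWord.sq k) / (3 * Real.log Real.goldenRatio) ≤ k + 4 / 3 := by
    rw [div_le_iff₀ (by positivity)]
    nlinarith
  linarith

theorem result :
    (∀ (k i : ℕ) (h : i < (fw k).length), (fw k)[i] = fib i) ∧
    (∃ C : ℝ, ∀ n : ℕ, 1 ≤ n → (PPL n : ℝ) ≤ Real.log n / (3 * Real.log Real.goldenRatio) + C) ∧
    (∃ C : ℝ, ∀ M : ℕ, ∃ n : ℕ, M ≤ n ∧ Real.log n / (3 * Real.log Real.goldenRatio) - C ≤ (PPL n : ℝ)) ∧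
    limsup (fun n : ℕ => (PPL n : ℝ) / Real.log n) atTop = 1 / (3 * Real.log Real.goldenRatio) := by
  have hg := log_g_pos
  refine ⟨fw_get, ⟨14, upper⟩, ⟨1, fun M => ⟨Pool.Agent.R864.FibWord.sq M, (sq_ge M).le, lower M⟩⟩, ?_⟩
  have hlog : Tendsto (fun n : ℕ => Real.log (n : ℝ)) atTop atTop :=
    Real.tendsto_log_atTop.comp tendsto_natCast_atTop_atTop
  have hnn : ∀ n : ℕ, 0 ≤ (PPL n : ℝ) / Real.log n := fun n =>
    div_nonneg (Nat.cast_nonneg _) (Real.log_natCast_nonneg n)
  have hup : ∀ ε : ℝ, 0 < ε → ∀ᶠ n : ℕ in atTop,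
      (PPL n : ℝ) / Real.log n ≤ 1 / (3 * Real.log Real.goldenRatio) + ε := by
    intro ε hε
    filter_upwards [hlog.eventually_ge_atTop (max 1 (14 / ε)), eventually_ge_atTop 1] with n h1 h2
    have hl1 : 1 ≤ Real.log n := (le_max_left _ _).trans h1
    have hl2 : 14 / ε ≤ Real.log n := (le_max_right _ _).trans h1
    have hl0 : 0 < Real.log n := by linarith
    rw [div_le_iff₀ hl0]
    have h3 := upper n h2
    have h4 : 14 ≤ ε * Real.log n := by
      rw [div_le_iff₀ hε] at hl2; linarith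
    have e : (1 / (3 * Real.log Real.goldenRatio) + ε) * Real.log n
        = Real.log n / (3 * Real.log Real.goldenRatio) + ε * Real.log n := by ring
    rw [e]; linarith
  have hbdd : IsBoundedUnder (· ≤ ·) atTop (fun n : ℕ => (PPL n : ℝ) / Real.log n) :=
    ⟨_, hup 1 one_pos⟩
  have hcob : IsCoboundedUnder (· ≤ ·) atTop (fun n : ℕ => (PPL n : ℝ) / Real.log n) :=
    isCoboundedUnder_le_of_le atTop (x := 0) hnn
  apply le_antisymm
  · refine le_of_forall_pos_le_add fun ε hε => ?_
    exact limsup_le_of_le hcob (hup ε hε)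
  · refine le_of_forall_pos_le_add fun ε hε => ?_
    rw [← sub_le_iff_le_add]
    refine le_limsup_of_frequently_le ?_ hbdd
    rw [frequently_atTop]
    intro M
    obtain ⟨K, hK⟩ := (tendsto_atTop.1 hlog (max 1 (1 / ε))).exists_forall_of_atTop
    refine ⟨Pool.Agent.R864.FibWord.sq (max M K), le_trans (le_max_left _ _) (sq_ge _).le, ?_⟩
    have h1 := hK (Pool.Agent.R864.FibWord.sq (max M K)) (le_trans (le_max_right _ _) (sq_ge _).le)
    have h2 := lower (max M K)
    set n := Pool.Agent.R864.FibWord.sq (max M K) with hn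
    have hl1 : 1 ≤ Real.log n := (le_max_left _ _).trans h1
    have hl2 : 1 / ε ≤ Real.log n := (le_max_right _ _).trans h1
    have hl0 : 0 < Real.log n := by linarith
    rw [le_div_iff₀ hl0]
    have h4 : 1 ≤ ε * Real.log n := by
      rw [div_le_iff₀ hε] at hl2; linarith
    have e : (1 / (3 * Real.log Real.goldenRatio) - ε) * Real.log n
        = Real.log n / (3 * Real.log Real.goldenRatio) - ε * Real.log n := by ring
    rw [e]; linarith

end Pool.Agent.Results.MP_3353e5_co.LogarithmicConstant
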